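import Pool.Agent.Y642.ND.Stm

/-! Project ND (helper642), job ND-CNT (helper730): the count. -/

set_option autoImplicit false

open Finset

namespace Pool.Agent.Y730.ND.Cnt

lemma bern (x : ℝ) (hx : 0 ≤ x) (n : ℕ) : x ^ (n + 1) + (n + 1) * x ^ n ≤ (x + 1) ^ (n + 1) := by
  induction n with
  | zero => simp
  | succ n ih =>
    have h1 : 0 ≤ x ^ n := pow_nonneg hx n
    calc x ^ (n + 1 + 1) + ((n + 1 : ℕ) + 1) * x ^ (n + 1) ≤ (x ^ (n + 1) + (n + 1) * x ^ n) * (x + 1) := by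
          push_cast
          have h2 : (x ^ (n + 1) + (n + 1) * x ^ n) * (x + 1) =
            x ^ (n + 1 + 1) + ((n : ℝ) + 1 + 1) * x ^ (n + 1) + (n + 1) * x ^ n := by ring
          rw [h2]
          have h3 : (0 : ℝ) ≤ (n + 1) * x ^ n := by positivity
          linarith
      _ ≤ (x + 1) ^ (n + 1) * (x + 1) := mul_le_mul_of_nonneg_right ih (by linarith)
      _ = _ := (pow_succ _ _).symm

lemma sum_pow (n : ℕ) (hn : 1 ≤ n) (T : ℕ) :
    ∑ t ∈ Finset.range T, ((t : ℝ) + 1) ^ n ≤ (T : ℝ) ^ (n + 1) / (n + 1) + (T : ℝ) ^ n := by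
  induction T with
  | zero =>
    simp
  | succ T ih =>
    rw [Finset.sum_range_succ]
    have h1 := bern (T : ℝ) (Nat.cast_nonneg T) n
    have h2 : (T : ℝ) ^ (n + 1) / (n + 1) + (T : ℝ) ^ n ≤ ((T : ℝ) + 1) ^ (n + 1) / (n + 1) := by
      rw [div_add' _ _ _ (by positivity), div_le_div_iff_of_pos_right (by positivity)]
      linarith
    push_cast
    linarith

theorem t : Pool.Agent.Y642.ND.S_CNT := by
  intro n q hn hq S
  classical
  set R := S.card with hR
  have hn0 : (0 : ℝ) < n := by exact_mod_cast hn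
  have hq0 : (1 : ℝ) ≤ q := by exact_mod_cast hq
  by_cases hR0 : R = 0
  · have hS : S = ∅ := Finset.card_eq_zero.1 hR0
    rw [hR0, hS]
    simp only [Nat.cast_zero, Finset.sum_empty, mul_zero, sub_zero]
    rw [Real.zero_rpow (by positivity), mul_zero]
  have hRpos : (0 : ℝ) < R := by exact_mod_cast Nat.pos_of_ne_zero hR0
  set ρ : ℝ := (R : ℝ) ^ (1 / (n : ℝ)) with hρ
  have hρ0 : 0 < ρ := Real.rpow_pos_of_pos hRpos _
  set T := ⌊ρ⌋₊ with hT
  have hTρ : (T : ℝ) ≤ ρ := Nat.floor_le hρ0.le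
  have hρT : ρ < T + 1 := Nat.lt_floor_add_one ρ
  have hρn : ρ ^ n = R := by
    rw [hρ, ← Real.rpow_natCast, ← Real.rpow_mul hRpos.le, one_div, inv_mul_cancel₀ hn0.ne', Real.rpow_one]
  have hTn : (T : ℝ) ^ n ≤ R := by
    rw [← hρn]
    exact pow_le_pow_left₀ (Nat.cast_nonneg T) hTρ n
  -- step 1
  have h1 : ∑ μ ∈ S, ((∑ j, (μ j : ℝ)) - n * ((q : ℝ) - 1)) ≤ q * ∑ μ ∈ S, ∑ j, ((μ j / q : ℕ) : ℝ) := by
    rw [Finset.mul_sum]
    refine Finset.sum_le_sum fun μ _ => ?_
    rw [Finset.mul_sum]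
    have e1 : (∑ j, (μ j : ℝ)) - n * ((q : ℝ) - 1) = ∑ j : Fin n, ((μ j : ℝ) - ((q : ℝ) - 1)) := by
      rw [Finset.sum_sub_distrib, Finset.sum_const, Finset.card_univ, Fintype.card_fin, nsmul_eq_mul]
    rw [e1]
    refine Finset.sum_le_sum fun j _ => ?_
    have e2 : (μ j : ℝ) = q * ((μ j / q : ℕ) : ℝ) + ((μ j % q : ℕ) : ℝ) := by
      exact_mod_cast (Nat.div_add_mod (μ j) q).symm
    have e3 : ((μ j % q : ℕ) : ℝ) ≤ (q : ℝ) - 1 := by
      have h : μ j % q + 1 ≤ q := Nat.mod_lt _ hq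
      have h' : ((μ j % q : ℕ) : ℝ) + 1 ≤ q := by exact_mod_cast h
      linarith
    linarith
  rw [Finset.sum_sub_distrib, Finset.sum_const, nsmul_eq_mul] at h1
  -- step 2
  have h2 : (T : ℝ) * R - ∑ t ∈ Finset.range T, ((t : ℝ) + 1) ^ n ≤ ∑ μ ∈ S, ∑ j, (μ j : ℝ) := by
    have e1 : ∀ μ : Fin n → ℕ, (((Finset.range T).filter (fun t => t + 1 ≤ ∑ j, μ j)).card : ℝ) ≤ ∑ j, (μ j : ℝ) := by
      intro μ
      have : ((Finset.range T).filter (fun t => t + 1 ≤ ∑ j, μ j)).card ≤ ∑ j, μ j := by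
        calc _ ≤ (Finset.range (∑ j, μ j)).card := by
              refine Finset.card_le_card fun t ht => ?_
              rw [Finset.mem_filter] at ht
              rw [Finset.mem_range]
              omega
          _ = _ := Finset.card_range _
      exact_mod_cast this
    have e2 : ∑ μ ∈ S, (((Finset.range T).filter (fun t => t + 1 ≤ ∑ j, μ j)).card : ℝ) =
        ∑ t ∈ Finset.range T, ((S.filter (fun μ => t + 1 ≤ ∑ j, μ j)).card : ℝ) := by
      simp only [Finset.card_filter]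
      push_cast
      exact Finset.sum_comm
    have e3 : ∀ t ∈ Finset.range T, (R : ℝ) - ((t : ℝ) + 1) ^ n ≤ ((S.filter (fun μ => t + 1 ≤ ∑ j, μ j)).card : ℝ) := by
      intro t _
      have f1 : (S.filter (fun μ => t + 1 ≤ ∑ j, μ j)).card + (S.filter (fun μ => ¬ t + 1 ≤ ∑ j, μ j)).card = R :=
        Finset.card_filter_add_card_filter_not _
      have f2 : (S.filter (fun μ => ¬ t + 1 ≤ ∑ j, μ j)).card ≤ (t + 1) ^ n := by
        calc _ ≤ (Fintype.piFinset (fun _ : Fin n => Finset.range (t + 1))).card := by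
              refine Finset.card_le_card fun μ hμ => ?_
              rw [Finset.mem_filter] at hμ
              rw [Fintype.mem_piFinset]
              intro j
              rw [Finset.mem_range]
              have := Finset.single_le_sum (f := μ) (fun i _ => Nat.zero_le _) (Finset.mem_univ j)
              omega
          _ = (t + 1) ^ n := by
              rw [Fintype.card_piFinset, Finset.prod_const, Finset.card_range, Finset.card_univ, Fintype.card_fin]
      have f1' : ((S.filter (fun μ => t + 1 ≤ ∑ j, μ j)).card : ℝ) + ((S.filter (fun μ => ¬ t + 1 ≤ ∑ j, μ j)).card : ℝ) = R := by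
        exact_mod_cast f1
      have f2' : ((S.filter (fun μ => ¬ t + 1 ≤ ∑ j, μ j)).card : ℝ) ≤ ((t : ℝ) + 1) ^ n := by
        exact_mod_cast f2
      linarith
    calc (T : ℝ) * R - ∑ t ∈ Finset.range T, ((t : ℝ) + 1) ^ n = ∑ t ∈ Finset.range T, ((R : ℝ) - ((t : ℝ) + 1) ^ n) := by
          rw [Finset.sum_sub_distrib, Finset.sum_const, Finset.card_range, nsmul_eq_mul]
      _ ≤ ∑ t ∈ Finset.range T, ((S.filter (fun μ => t + 1 ≤ ∑ j, μ j)).card : ℝ) := Finset.sum_le_sum e3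
      _ = _ := e2.symm
      _ ≤ _ := Finset.sum_le_sum fun μ _ => e1 μ
  have h3 := sum_pow n hn T
  -- step 4
  have h4 : (T : ℝ) ^ (n + 1) / (n + 1) ≤ T * R / (n + 1) := by
    refine div_le_div_of_nonneg_right ?_ (by positivity)
    rw [pow_succ, mul_comm]
    exact mul_le_mul_of_nonneg_left hTn (Nat.cast_nonneg T)
  have h5 : (R : ℝ) ^ (1 + 1 / (n : ℝ)) = R * ρ := by
    rw [Real.rpow_add hRpos, Real.rpow_one]
  have h6 : (n : ℝ) / (n + 1) * (R * ρ) ≤ n / (n + 1) * (R * (T + 1)) :=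
    mul_le_mul_of_nonneg_left (mul_le_mul_of_nonneg_left hρT.le hRpos.le) (by positivity)
  have h7 : (n : ℝ) / (n + 1) * (R * (T + 1)) = T * R - T * R / (n + 1) + n / (n + 1) * R := by
    field_simp
    ring
  have h8 : (n : ℝ) / (n + 1) * R ≤ R := by
    have : (n : ℝ) / (n + 1) ≤ 1 := by
      rw [div_le_one (by positivity)]
      linarith
    calc (n : ℝ) / (n + 1) * R ≤ 1 * R := mul_le_mul_of_nonneg_right this hRpos.le
      _ = R := one_mul _
  rw [h5]
  have h9 : ((n : ℝ) * ((q : ℝ) - 1) + 2) * R = R * (n * ((q : ℝ) - 1)) + 2 * R := by ring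
  rw [h9]
  linarith

end Pool.Agent.Y730.ND.Cnt
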