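import Pool.Agent.Y642.ND.Stm

/-! Project ND (helper642), job ND-INT (helper730); the first part is copied from H334R2/Integral. -/

set_option autoImplicit false

universe u

namespace Pool.Agent.Y730.ND.Int

open Polynomial

section

variable {Ω : Type u} [Field Ω]

/-- leading coefficient times a root is integral, for a complex polynomial with integral coefs. -/
lemma isIntegral_leadingCoeff_mul_root {g : Polynomial Ω} {r : Ω} (hint : ∀ i, IsIntegral ℤ (g.coeff i))
    (hr : g.eval r = 0) : IsIntegral ℤ (g.leadingCoeff * r) := by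
  have hlift : g ∈ Polynomial.lifts (algebraMap (integralClosure ℤ Ω) Ω) := by
    rw [Polynomial.lifts_iff_coeff_lifts]
    intro n
    exact ⟨⟨g.coeff n, hint n⟩, rfl⟩
  obtain ⟨p, hp, hdeg⟩ := Polynomial.exists_degree_eq_of_mem_lifts hlift
  have h1 : aeval r p = 0 := by
    rw [← eval_map_algebraMap, hp, hr]
  have h2 := isIntegral_leadingCoeff_smul p r h1
  have h3 : IsIntegral ℤ (p.leadingCoeff • r) := isIntegral_trans (A := integralClosure ℤ Ω) _ h2
  have h4 : g.leadingCoeff = algebraMap (integralClosure ℤ Ω) Ω p.leadingCoeff := by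
    have hnd : g.natDegree = p.natDegree := by
      rw [natDegree, natDegree, hdeg]
    rw [leadingCoeff, leadingCoeff, hnd, ← hp, coeff_map]
  rw [h4]
  simpa [Algebra.smul_def] using h3

/-- dividing by a linear factor keeps the coefficients integral. -/
lemma coeff_isIntegral_of_linear_mul (r : Ω) : ∀ (m : ℕ) (h : Polynomial Ω), h.natDegree ≤ m →
    (∀ i, IsIntegral ℤ (((X - C r) * h).coeff i)) → ∀ i, IsIntegral ℤ (h.coeff i) := by
  intro m
  induction m with
  | zero =>
    intro h hdeg hint i
    have hh : h = C (h.coeff 0) := eq_C_of_natDegree_le_zero hdeg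
    have h1 := hint 1
    rw [hh] at h1 ⊢
    have h2 : ((X - C r) * C (h.coeff 0)).coeff 1 = h.coeff 0 := by
      rw [coeff_mul_C]; simp
    rw [h2] at h1
    rcases i with _ | i
    · simpa using h1
    · simpa [coeff_C] using isIntegral_zero
  | succ m ih =>
    intro h hdeg hint i
    -- leading coefficient
    by_cases hh0 : h.coeff (m+1) = 0
    · have hdeg' : h.natDegree ≤ m := by
        by_contra hcon
        have : h.natDegree = m + 1 := by omega
        have h3 : h.leadingCoeff = 0 := by rw [leadingCoeff, this, hh0]
        rw [leadingCoeff_eq_zero] at h3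
        subst h3
        simp at this
      exact ih h hdeg' hint i
    · set a := h.coeff (m+1) with ha
      have hnd : h.natDegree = m + 1 := le_antisymm hdeg (le_natDegree_of_ne_zero hh0)
      have hlc : h.leadingCoeff = a := by rw [leadingCoeff, hnd]
      have hlc2 : ((X - C r) * h).leadingCoeff = a := by
        rw [leadingCoeff_mul, leadingCoeff_X_sub_C, one_mul, hlc]
      have haint : IsIntegral ℤ a := by
        rw [← hlc2]; exact hint _
      have har : IsIntegral ℤ (a * r) := by
        rw [← hlc2]
        exact isIntegral_leadingCoeff_mul_root hint (by simp)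
      set h1 := h - C a * X ^ (m+1) with hh1
      have hdeg1 : h1.natDegree ≤ m := by
        rw [natDegree_le_iff_coeff_eq_zero]
        intro N hN
        rw [hh1, coeff_sub, coeff_C_mul_X_pow]
        split_ifs with hif
        · rw [hif]; simp [ha]
        · rw [coeff_eq_zero_of_natDegree_lt (by omega)]; simp
      have hint1 : ∀ i, IsIntegral ℤ (((X - C r) * h1).coeff i) := by
        intro i
        have : (X - C r) * h1 = (X - C r) * h - C a * X ^ (m+2) + C (a * r) * X ^ (m+1) := by
          rw [hh1, C_mul]; ring
        rw [this, coeff_add, coeff_sub, coeff_C_mul_X_pow, coeff_C_mul_X_pow]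
        refine IsIntegral.add (IsIntegral.sub (hint i) ?_) ?_
        · split_ifs
          · exact haint
          · exact isIntegral_zero
        · split_ifs
          · exact har
          · exact isIntegral_zero
      have := ih h1 hdeg1 hint1 i
      have h5 : h.coeff i = h1.coeff i + (C a * X ^ (m+1)).coeff i := by
        rw [hh1, coeff_sub]; ring
      rw [h5, coeff_C_mul_X_pow]
      refine IsIntegral.add this ?_
      split_ifs
      · exact haint
      · exact isIntegral_zero

/-- B1: if `A ∏ (X - r_σ)` has integral coefficients, then `A ∏_{σ ∈ S} r_σ` is integral. -/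
lemma isIntegral_mul_prod_subset {ι : Type*} [DecidableEq ι] (A : Ω) (r : ι → Ω) (U S : Finset ι)
    (hSU : S ⊆ U) (hint : ∀ i, IsIntegral ℤ ((C A * ∏ σ ∈ U, (X - C (r σ))).coeff i)) :
    IsIntegral ℤ (A * ∏ σ ∈ S, r σ) := by
  -- remove roots outside S
  have key : ∀ T : Finset ι, Disjoint S T →
      (∀ i, IsIntegral ℤ ((C A * ∏ σ ∈ S ∪ T, (X - C (r σ))).coeff i)) →
      (∀ i, IsIntegral ℤ ((C A * ∏ σ ∈ S, (X - C (r σ))).coeff i)) := by
    intro T
    induction T using Finset.induction_on with
    | empty => intro _ h; simpa using h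
    | insert a T ha ih =>
      intro hd h
      have hd' : Disjoint S T := by
        refine Finset.disjoint_of_subset_right (Finset.subset_insert _ _) hd
      refine ih hd' ?_
      have haS : a ∉ S ∪ T := by
        rw [Finset.mem_union, not_or]
        refine ⟨?_, ha⟩
        intro haS
        exact (Finset.disjoint_left.mp hd haS) (Finset.mem_insert_self _ _)
      have heq : C A * ∏ σ ∈ S ∪ insert a T, (X - C (r σ)) =
          (X - C (r a)) * (C A * ∏ σ ∈ S ∪ T, (X - C (r σ))) := by
        rw [Finset.union_insert, Finset.prod_insert haS]; ring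
      rw [heq] at h
      exact coeff_isIntegral_of_linear_mul (r a) _ _ le_rfl h
  have h1 := key (U \ S) Finset.disjoint_sdiff (by
    rw [Finset.union_sdiff_of_subset hSU]; exact hint) 0
  rw [coeff_zero_eq_eval_zero, eval_mul, eval_C, eval_prod] at h1
  simp only [eval_sub, eval_X, eval_C, zero_sub] at h1
  rw [Finset.prod_neg] at h1
  have h2 : A * ∏ σ ∈ S, r σ = (-1) ^ S.card * (A * ((-1) ^ S.card * ∏ σ ∈ S, r σ)) := by
    have : ((-1 : Ω) ^ S.card) * (-1) ^ S.card = 1 := by
      rw [← mul_pow]; simp
    calc A * ∏ σ ∈ S, r σ = (((-1 : Ω) ^ S.card) * (-1) ^ S.card) * (A * ∏ σ ∈ S, r σ) := by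
          rw [this, one_mul]
      _ = _ := by ring
  rw [h2]
  exact ((isIntegral_one.neg).pow _).mul h1

end

theorem t : Pool.Agent.Y642.ND.S_INT.{u} := by
  intro Ω _ J _ _ a y hint S M l hl
  classical
  have h1 : a ^ M * ∏ σ ∈ S, y σ ^ l σ = ∏ k ∈ Finset.range M, (a * ∏ σ ∈ S.filter (fun σ => k < l σ), y σ) := by
    rw [Finset.prod_mul_distrib, Finset.prod_const, Finset.card_range]
    congr 1
    simp only [Finset.prod_filter]
    rw [Finset.prod_comm]
    refine Finset.prod_congr rfl fun σ hσ => ?_
    rw [← Finset.prod_filter, Finset.prod_const]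
    congr 1
    have h2 : (Finset.range M).filter (fun k => k < l σ) = Finset.range (l σ) := by
      ext k
      rw [Finset.mem_filter, Finset.mem_range, Finset.mem_range]
      have := hl σ hσ
      omega
    rw [h2, Finset.card_range]
  rw [h1]
  refine IsIntegral.prod _ fun k _ => ?_
  exact isIntegral_mul_prod_subset a y Finset.univ _ (Finset.subset_univ _) hint

end Pool.Agent.Y730.ND.Int
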