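import Pool.Agent.Y642.ND.Stm

/-! Project ND (helper642), job ND-NEW (helper730): Newton polynomials. -/

set_option autoImplicit false

universe u

namespace Pool.Agent.Y730.ND.New

/-- the coefficients -/
noncomputable def cc {A : Type u} [CommRing A] (v : ℕ → A) : ℕ → ℕ → A
  | 0, k => if k = 0 then 1 else 0
  | m + 1, k => (if k = 0 then 0 else cc v m (k - 1)) + v k * cc v m k

theorem cc_zero {A : Type u} [CommRing A] (v : ℕ → A) : ∀ m k : ℕ, m < k → cc v m k = 0 := by
  intro m
  induction m with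
  | zero =>
    intro k hk
    rw [cc, if_neg (by omega)]
  | succ m ih =>
    intro k hk
    rw [cc, if_neg (by omega), ih (k - 1) (by omega), ih k (by omega), mul_zero, add_zero]

theorem cc_exp {A : Type u} [CommRing A] (v : ℕ → A) (t : A) : ∀ m : ℕ,
    t ^ m = ∑ k ∈ Finset.range (m + 1), cc v m k * ∏ r ∈ Finset.range k, (t - v r) := by
  intro m
  induction m with
  | zero =>
    rw [zero_add, Finset.sum_range_one, Finset.prod_range_zero, cc, if_pos rfl, pow_zero, mul_one]
  | succ m ih =>
    have h1 : ∑ k ∈ Finset.range (m + 1 + 1), cc v (m + 1) k * ∏ r ∈ Finset.range k, (t - v r) =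
        ∑ k ∈ Finset.range (m + 1 + 1), (if k = 0 then 0 else cc v m (k - 1)) * ∏ r ∈ Finset.range k, (t - v r) +
        ∑ k ∈ Finset.range (m + 1 + 1), (v k * cc v m k) * ∏ r ∈ Finset.range k, (t - v r) := by
      rw [← Finset.sum_add_distrib]
      refine Finset.sum_congr rfl fun k _ => ?_
      rw [cc, add_mul]
    rw [h1, Finset.sum_range_succ' _ (m + 1), if_pos rfl, zero_mul, add_zero,
      Finset.sum_range_succ (fun k => (v k * cc v m k) * ∏ r ∈ Finset.range k, (t - v r)) (m + 1),
      cc_zero v m (m + 1) (by omega), mul_zero, zero_mul, add_zero, ← Finset.sum_add_distrib, pow_succ, ih,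
      Finset.sum_mul]
    refine Finset.sum_congr rfl fun k _ => ?_
    rw [if_neg (by omega), Nat.add_sub_cancel, Finset.prod_range_succ]
    ring

theorem t : Pool.Agent.Y642.ND.S_NEW.{u} := by
  intro A _ π _
  classical
  set q := Nat.card (A ⧸ Ideal.span {π}) with hq
  have hq0 : 0 < q := Nat.card_pos
  let e : (A ⧸ Ideal.span {π}) ≃ Fin q := Finite.equivFin _
  let v : ℕ → A := fun k => (Ideal.Quotient.mk_surjective (e.symm ⟨k % q, Nat.mod_lt _ hq0⟩)).choose
  have hv : ∀ k, Ideal.Quotient.mk (Ideal.span {π}) (v k) = e.symm ⟨k % q, Nat.mod_lt _ hq0⟩ := fun k =>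
    (Ideal.Quotient.mk_surjective (e.symm ⟨k % q, Nat.mod_lt _ hq0⟩)).choose_spec
  have hblk : ∀ (t : A) (b : ℕ), π ^ b ∣ ∏ r ∈ Finset.range (b * q), (t - v r) := by
    intro t b
    induction b with
    | zero => simp
    | succ b ih =>
      rw [add_mul, one_mul, Finset.prod_range_add, pow_succ]
      refine mul_dvd_mul ih ?_
      set i := e (Ideal.Quotient.mk (Ideal.span {π}) t) with hi
      have h1 : π ∣ t - v (b * q + i) := by
        rw [← Ideal.mem_span_singleton, ← Ideal.Quotient.eq_zero_iff_mem, map_sub, hv]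
        have h2 : (⟨(b * q + i) % q, Nat.mod_lt _ hq0⟩ : Fin q) = i := by
          apply Fin.ext
          show (b * q + (i : ℕ)) % q = i
          rw [add_comm, Nat.add_mul_mod_self_right, Nat.mod_eq_of_lt i.2]
        rw [h2, hi, Equiv.symm_apply_apply, sub_self]
      exact h1.trans (Finset.dvd_prod_of_mem (fun x => t - v (b * q + x)) (Finset.mem_range.2 i.2))
  refine ⟨v, cc v, fun k t => ?_, fun m t => cc_exp v t m, cc_zero v⟩
  have h1 : k = k / q * q + k % q := (Nat.div_add_mod' k q).symm
  have h2 : ∏ r ∈ Finset.range k, (t - v r) = (∏ r ∈ Finset.range (k / q * q), (t - v r)) *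
      ∏ r ∈ Finset.range (k % q), (t - v (k / q * q + r)) := by
    conv_lhs => rw [h1]
    rw [Finset.prod_range_add]
  rw [h2]
  exact (hblk t (k / q)).mul_right _

end Pool.Agent.Y730.ND.New
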